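import Mathlib
import Pool.Agent.Lib.helper23.TfB

namespace Pool.Agent.Results.MP_ebc7ea_an.Factorization

open Finset Pool.Agent.Lib.helper23.TfA Pool.Agent.Lib.helper23.TfB

/-- `n ≤ E₁ < ⋯ < Eₙ` for nonempty finite sets. The index `k : ℕ` stands for the positive
integer `k + 1`. -/
def Admissible (n : ℕ) (E : Fin n → Finset ℕ) : Prop :=
  (∀ i, (E i).Nonempty) ∧ (∀ i j, i < j → ∀ k ∈ E i, ∀ l ∈ E j, k < l) ∧
    ∀ i, ∀ k ∈ E i, n ≤ k + 1

/-- `X` with `e`, `e'` is Tsirelson's space with its unit vector basis: `e` has dense linear span,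
`e'` are the biorthogonal functionals, and on finite combinations `x` the norm is the maximum of
`‖x‖∞` and of the supremum of `(1/2) ∑ ‖Eᵢ x‖` over admissible families. -/
def IsTsirelson {X : Type} [NormedAddCommGroup X] [NormedSpace ℝ X] (e : ℕ → X)
    (e' : ℕ → X →L[ℝ] ℝ) : Prop :=
  (∀ j k, e' j (e k) = if j = k then 1 else 0) ∧
  Dense (Submodule.span ℝ (Set.range e) : Set X) ∧
  ∀ x ∈ Submodule.span ℝ (Set.range e),
    IsLUB (Set.range (fun k => |e' k x|) ∪ {r | ∃ (n : ℕ) (E : Fin n → Finset ℕ),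
      Admissible n E ∧ r = 1 / 2 * ∑ i, ‖∑ k ∈ E i, e' k x • e k‖}) ‖x‖

variable {X : Type} [NormedAddCommGroup X] [NormedSpace ℝ X] {e : ℕ → X} {e' : ℕ → X →L[ℝ] ℝ}

theorem mem_span (S : Finset ℕ) (a : ℕ → ℝ) :
    ∑ k ∈ S, a k • e k ∈ Submodule.span ℝ (Set.range e) :=
  Submodule.sum_mem _ fun k _ => Submodule.smul_mem _ _ (Submodule.subset_span ⟨k, rfl⟩)

theorem ts (h : IsTsirelson e e') : Ts e := by
  obtain ⟨hbi, -, h⟩ := h
  refine ⟨fun S a k hk => ?_, fun S a I E h1 h2 h3 => ?_, fun S a M hM h1 h2 => ?_⟩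
  · have := (h _ (mem_span S a)).1 (Or.inl ⟨k, rfl⟩)
    simp only [e'_sum hbi, if_pos hk] at this
    exact this
  · set I' := I.filter fun i => (E i).Nonempty with hI
    have h4 : ∀ i, I'.orderEmbOfFin rfl i ∈ I ∧ (E (I'.orderEmbOfFin rfl i)).Nonempty := fun i =>
      mem_filter.1 (I'.orderEmbOfFin_mem rfl i)
    have := (h _ (mem_span S a)).1 (Or.inr ⟨I'.card, fun i => E (I'.orderEmbOfFin rfl i),
      ⟨fun i => (h4 i).2, fun i j hij => h2 _ (h4 i).1 _ (h4 j).1
        ((I'.orderEmbOfFin rfl).strictMono hij),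
        fun i k hk => (card_filter_le _ _).trans (h3 _ (h4 i).1 k hk)⟩, rfl⟩)
    simp only [proj_eq hbi, fun i => inter_eq_left.2 (h1 _ (h4 i).1)] at this
    have h5 : ∑ i, N e (E (I'.orderEmbOfFin rfl i)) a = ∑ i ∈ I', N e (E i) a := by
      rw [← sum_coe_sort I']
      exact Fintype.sum_equiv (I'.orderIsoOfFin rfl).toEquiv _ _ fun i => rfl
    have h6 : ∑ i ∈ I', N e (E i) a = ∑ i ∈ I, N e (E i) a :=
      sum_filter_of_ne fun i _ hi => nonempty_iff_ne_empty.2 fun h0 => hi (by rw [h0, N_empty])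
    rw [← h6, ← h5]
    unfold N
    linarith
  · have key : N e S a ≤ max M (N e S a / 2) := by
      refine (h _ (mem_span S a)).2 ?_
      rintro r (⟨k, rfl⟩ | ⟨n, E, ⟨-, h3, h4⟩, rfl⟩)
      · simp only [e'_sum hbi]
        split_ifs with hk
        · exact (h1 k hk).trans (le_max_left _ _)
        · rw [abs_zero]; exact hM.trans (le_max_left _ _)
      · simp only [proj_eq hbi]
        by_cases h5 : ∃ i, S ⊆ E i ∧ S.Nonempty
        · obtain ⟨i, hi, k, hk⟩ := h5
          rw [sum_eq_single i (fun j _ hj => ?_) (by simp), inter_eq_right.2 hi]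
          · refine le_trans ?_ (le_max_right _ _)
            unfold N; linarith
          · rw [sum_eq_zero fun l hl => ?_, norm_zero]
            exfalso
            rcases lt_or_gt_of_ne hj with h6 | h6
            · exact lt_irrefl _ (h3 j i h6 l (mem_inter.1 hl).1 l (hi (mem_inter.1 hl).2))
            · exact lt_irrefl _ (h3 i j h6 l (hi (mem_inter.1 hl).2) l (mem_inter.1 hl).1)
        · have h6 := h2 n (fun i => if hi : i < n then E ⟨i, hi⟩ ∩ S else ∅) (fun i hi => ?_)
            (fun i hi j hj hij k hk l hl => ?_) fun i hi k hk => ?_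
          · rw [← Fin.sum_univ_eq_sum_range (fun i =>
              N e (if hi : i < n then E ⟨i, hi⟩ ∩ S else ∅) a)] at h6
            simp only [Fin.is_lt, dif_pos, Fin.eta] at h6
            refine le_trans ?_ (le_max_left _ _)
            unfold N at h6; linarith
          · rw [dif_pos (mem_range.1 hi)]
            rcases S.eq_empty_or_nonempty with h7 | h7
            · right; rw [h7, inter_empty]
            · exact Or.inl (Finset.ssubset_iff_subset_ne.2 ⟨inter_subset_right,
                fun h8 => h5 ⟨_, inter_eq_right.1 h8, h7⟩⟩)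
          · simp only [dif_pos (mem_range.1 hi)] at hk
            simp only [dif_pos (mem_range.1 hj)] at hl
            exact h3 ⟨i, mem_range.1 hi⟩ ⟨j, mem_range.1 hj⟩ hij k (mem_inter.1 hk).1 l
              (mem_inter.1 hl).1
          · simp only [dif_pos (mem_range.1 hi)] at hk
            exact h4 _ k (mem_inter.1 hk).1
    rcases le_max_iff.1 key with h3 | h3
    · exact h3
    · linarith

theorem result (X : Type) [NormedAddCommGroup X] [NormedSpace ℝ X] [CompleteSpace X]
    (e : ℕ → X) (e' : ℕ → X →L[ℝ] ℝ) (h : IsTsirelson e e') (A : X →L[ℝ] X)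
    (hA : ∃ δ > 0, ∀ k, δ ≤ |e' k (A (e k))|) :
    ∃ R S : X →L[ℝ] X, S ∘L A ∘L R = ContinuousLinearMap.id ℝ X := by
  obtain ⟨δ, hδ, hA⟩ := hA
  exact main (ts h) h.1 h.2.1 A δ hδ hA

end Pool.Agent.Results.MP_ebc7ea_an.Factorization
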